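import Pool.Agent.X275.GB.K61
import Pool.Agent.X31.M3
import Pool.Agent.X31.S4

/-!
# Sums of two distinct, almost equal odd primes, near bilinear values at pairs of integers with missing digits

`φ(x, y) = θ x y + g(x) + h(y)` with ARBITRARY real functions `g`, `h` and a real number `θ` of a suitable size; `x` and `y` run
through integers with missing digits (in two bases; the sets of allowed digits are arbitrary with at least TWO elements, so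
these sets can be as thin as `N ^ ε`). For almost all elements `(x, y)` of ARBITRARY dense sets of such pairs, ALL even
numbers `m > 0` with `|m - φ(x, y)| ≤ log ^ D N` have the property `Holds`. For instance, even numbers near the products
`x y` of two integers with the decimal digits `0` and `1` only.

Method: the windows formula for almost all members of the families of small additive energy
(`Pool.Agent.TH935.GF.fam_win`, starting files), and the bound for the real additive energy of the bilinear families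
(`Pool.Agent.X31.M1` - `M3`, in this run).

`Holds ε A m` (module `Pool.Agent.X275.GB.K61`): for every `H` with `m / log ^ A m ≤ H ≤ m` there are distinct odd primes
`p < p'` with `p + p' = m` and `p' - p ≤ H` (for `H = m` this is the assertion of the problem for `m`), and the number of
these pairs is `𝔖(m) H / (2 log ^ 2 m)` up to a relative error of at most `ε`. Here `𝔖(m) = sing m` is the singular series.
Definitions from
`Pool.Agent.H560R3.GB` (starting files): `C₂`: the twin prime constant `∏_{p > 2} (1 - 1 / (p - 1) ^ 2)`; `sing m`: the singular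
series `2 C₂ ∏_{p ∣ m, p > 2} (p - 1) / (p - 2)`.
-/

set_option autoImplicit false

namespace Pool.Agent.Results.MP_61161c_nt.BilinearMissingDigits

open Finset Pool.Agent.H560R3.GB Pool.Agent.X275.GB.K61

/-- the integers `0 ≤ n < b ^ M` whose digit at `b ^ j` in base `b` is in `𝒟 j`, for all `j < M` -/
def Digits (b : ℕ) (𝒟 : ℕ → Finset ℕ) (M : ℕ) : Finset ℕ :=
  (range (b ^ M)).filter (fun n => ∀ j < M, n / b ^ j % b ∈ 𝒟 j)

/-- The sets `𝒟₁ j`, `𝒟₂ j` of allowed digits in the bases `b₁`, `b₂` have at least two elements; the numbers `M₁`, `M₂` of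
digits differ at most by the factor `lam`; `|θ| ≤ log ^ D N` and `|θ| b₁ ^ M₁ b₂ ^ M₂ ≥ N / log ^ D N`; `S` is a subset of
the product of the two sets of integers with missing digits with at least `1 / log ^ D N` of its elements, and
`|θ x y + g(x) + h(y)| ≤ N` on `S`. -/
def Fam (b₁ b₂ lam D N M₁ M₂ : ℕ) (𝒟₁ 𝒟₂ : ℕ → Finset ℕ) (θ : ℝ) (g h : ℕ → ℝ) (S : Finset (ℕ × ℕ)) : Prop :=
  (∀ j, 𝒟₁ j ⊆ range b₁ ∧ 2 ≤ (𝒟₁ j).card) ∧ (∀ j, 𝒟₂ j ⊆ range b₂ ∧ 2 ≤ (𝒟₂ j).card) ∧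
  M₁ ≤ lam * M₂ ∧ M₂ ≤ lam * M₁ ∧ |θ| ≤ Real.log N ^ D ∧
  (N : ℝ) / Real.log N ^ D ≤ |θ| * ((b₁ : ℝ) ^ M₁ * (b₂ : ℝ) ^ M₂) ∧
  S ⊆ Digits b₁ 𝒟₁ M₁ ×ˢ Digits b₂ 𝒟₂ M₂ ∧
  ((Digits b₁ 𝒟₁ M₁).card * (Digits b₂ 𝒟₂ M₂).card : ℝ) / Real.log N ^ D ≤ S.card ∧
  ∀ p ∈ S, |θ * ((p.1 : ℝ) * p.2) + g p.1 + h p.2| ≤ N

lemma dat_of {b₁ b₂ lam D N M₁ M₂ : ℕ} {𝒟₁ 𝒟₂ : ℕ → Finset ℕ} {θ : ℝ} {g h : ℕ → ℝ} {S : Finset (ℕ × ℕ)}
    (H : Fam b₁ b₂ lam D N M₁ M₂ 𝒟₁ 𝒟₂ θ g h S) :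
    Pool.Agent.X31.CT.Dat2 b₁ b₂ lam D N M₁ M₂ 𝒟₁ 𝒟₂ θ g h S :=
  ⟨H.1, H.2.1, H.2.2.1, H.2.2.2.1, H.2.2.2.2.1, H.2.2.2.2.2.1, H.2.2.2.2.2.2.1, H.2.2.2.2.2.2.2.1,
    H.2.2.2.2.2.2.2.2⟩

open Classical in
/-- Let `b₁, b₂ ≥ 2`, `lam ≥ 1`. For all sufficiently large `N`, for ALL data with `Fam b₁ b₂ lam D N M₁ M₂ 𝒟₁ 𝒟₂ θ g h S`
(the functions `g`, `h` are arbitrary): all but at most `|S| / log ^ U N` elements `(x, y)` of `S` are such that ALL even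
numbers `m > 0` with `|m - (θ x y + g(x) + h(y))| ≤ log ^ D N` satisfy `Holds ε A m`. -/
theorem result (b₁ b₂ lam : ℕ) (hb₁ : 2 ≤ b₁) (hb₂ : 2 ≤ b₂) (hlam : 1 ≤ lam) (A D U : ℕ) (ε : ℝ) (hε : 0 < ε) :
    ∃ N₀ : ℕ, ∀ N : ℕ, N₀ ≤ N → ∀ (M₁ M₂ : ℕ) (𝒟₁ 𝒟₂ : ℕ → Finset ℕ) (θ : ℝ) (g h : ℕ → ℝ) (S : Finset (ℕ × ℕ)),
      Fam b₁ b₂ lam D N M₁ M₂ 𝒟₁ 𝒟₂ θ g h S →
      ((S.filter (fun p : ℕ × ℕ => ¬ ∀ m : ℕ, 0 < m → Even m →
        |(m : ℝ) - (θ * ((p.1 : ℝ) * p.2) + g p.1 + h p.2)| ≤ Real.log N ^ D → Holds ε A m)).card : ℝ) ≤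
        S.card / Real.log N ^ U := by
  obtain ⟨N₀, h0⟩ := (Pool.Agent.X31.Sch_bil hb₁ hb₂ lam hlam).even D U _ (famP A ε hε)
  refine ⟨N₀, fun N hN M₁ M₂ 𝒟₁ 𝒟₂ θ g h S hdat => ?_⟩
  obtain ⟨E, hE1, hE2⟩ := h0 N hN S (fun p => θ * ((p.1 : ℝ) * p.2) + g p.1 + h p.2)
    ⟨M₁, M₂, 𝒟₁, 𝒟₂, θ, g, h, dat_of hdat, fun p => rfl⟩
  refine le_trans ?_ hE1
  apply Nat.cast_le.2
  apply card_le_card
  intro n hn
  rw [mem_filter] at hn
  by_contra hcon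
  exact hn.2 (fun m hm0 hm2 hm3 => hE2 n hn.1 hcon m hm0 hm2 hm3)

end Pool.Agent.Results.MP_61161c_nt.BilinearMissingDigits
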