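import Pool.Agent.X275.GB.K61
import Pool.Agent.X31.E9

/-!
# Sums of two distinct, almost equal odd primes, near the values of generalised polynomials

`f(t) = ∑ a_x t ^ x` is an arbitrary finite real combination of arbitrary real powers of `t` whose largest exponent `c` is
positive. For almost all elements `n` of an ARBITRARY set `S ⊆ {1, ..., Y}` with at least `Y / log ^ D Y` elements (for
instance: the primes up to `Y`), with at most `|S| / log ^ U Y` exceptions, ALL even numbers `m > 0` at a distance of at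
most `log ^ D Y` from `k + f(n)` have the property `Holds`. Here `k` is an arbitrary real number with
`|k| ≤ Y ^ c log ^ D Y`, and everything is uniform in `S` and `k`.

Method: the windows formula for almost all members of the families of small additive energy
(`Pool.Agent.TH935.GF.fam_win`, starting files), and the bound for the real additive energy of a generalised polynomial
(`Pool.Agent.X31.E1` - `E9`, in this run).

`Holds ε A m` (module `Pool.Agent.X275.GB.K61`): for every `H` with `m / log ^ A m ≤ H ≤ m` there are distinct odd primes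
`p < p'` with `p + p' = m` and `p' - p ≤ H` (for `H = m` this is the assertion of the problem for `m`), and the number of
these pairs is `𝔖(m) H / (2 log ^ 2 m)` up to a relative error of at most `ε`. Here `𝔖(m) = sing m` is the singular series.
Definitions from
`Pool.Agent.H560R3.GB` (starting files): `C₂`: the twin prime constant `∏_{p > 2} (1 - 1 / (p - 1) ^ 2)`; `sing m`: the singular
series `2 C₂ ∏_{p ∣ m, p > 2} (p - 1) / (p - 2)`.
-/

set_option autoImplicit false

namespace Pool.Agent.Results.MP_61161c_nt.GeneralisedPolynomials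

open Finset Pool.Agent.H560R3.GB Pool.Agent.X275.GB.K61

/-- the generalised polynomial with the exponents `x ∈ F` and the coefficients `a x` -/
noncomputable def f (F : Finset ℝ) (a : ℝ → ℝ) (t : ℝ) : ℝ := ∑ x ∈ F, a x * t ^ x

open Classical in
/-- Let `F` be a finite set of real numbers with the maximum `c > 0`, `a c ≠ 0`, and `f(t) = ∑_{x ∈ F} a x * t ^ x`.
For all sufficiently large `Y`, for EVERY set `S ⊆ {1, ..., Y}` with at least `Y / log ^ D Y` elements and every real number
`k` with `|k| ≤ Y ^ c log ^ D Y`, all but at most `|S| / log ^ U Y` elements `n` of `S` are such that ALL even numbers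
`m > 0` with `|m - (k + f(n))| ≤ log ^ D Y` satisfy `Holds ε A m`. -/
theorem result (F : Finset ℝ) (a : ℝ → ℝ) (c : ℝ) (hcF : c ∈ F) (hmax : ∀ x ∈ F, x ≤ c)
    (hac : a c ≠ 0) (hc : 0 < c) (A D U : ℕ) (ε : ℝ) (hε : 0 < ε) :
    ∃ Y₀ : ℕ, ∀ Y : ℕ, Y₀ ≤ Y → ∀ S : Finset ℕ, S ⊆ Icc 1 Y →
      (Y : ℝ) / Real.log Y ^ D ≤ S.card →
      ∀ k : ℝ, |k| ≤ (Y : ℝ) ^ c * Real.log Y ^ D →
      ((S.filter (fun n : ℕ => ¬ ∀ m : ℕ, 0 < m → Even m →
        |(m : ℝ) - (k + f F a n)| ≤ Real.log Y ^ D → Holds ε A m)).card : ℝ) ≤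
        S.card / Real.log Y ^ U := by
  -- the sign of the leading coefficient
  obtain ⟨a', κ, hκ, ha', hf⟩ : ∃ (a' : ℝ → ℝ) (κ : ℝ), κ ≠ 0 ∧ 0 < a' c ∧
      ∀ n : ℕ, κ * Pool.Agent.X31.gp F a' n = f F a n := by
    rcases lt_or_gt_of_ne hac with h | h
    · refine ⟨fun x => - a x, -1, by norm_num, by simpa using h, fun n => ?_⟩
      unfold Pool.Agent.X31.gp f
      rw [mul_sum]
      apply sum_congr rfl
      intro x _
      ring
    · exact ⟨a, 1, one_ne_zero, h, fun n => by rw [one_mul]; rfl⟩
  obtain ⟨Y₀, hY₀⟩ := Pool.Agent.X31.gp_main F a' c hcF hmax ha' hc κ hκ D U _ (famP A ε hε)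
  refine ⟨Y₀ + 3, fun Y hY S hS hSc k hk => ?_⟩
  have hl : 0 < Real.log Y := Real.log_pos (by exact_mod_cast (by omega : 1 < Y))
  apply hY₀ Y (by omega) S hS (by
    rw [div_le_iff₀ (by positivity)] at hSc
    exact hSc) k hk _ (filter_subset _ _)
  intro n hn
  rw [mem_filter] at hn
  obtain ⟨_, hn⟩ := hn
  push Not at hn
  obtain ⟨m, hm0, hm2, hm3, hm4⟩ := hn
  exact ⟨m, hm0, hm2, by rw [hf]; exact hm3, hm4⟩

end Pool.Agent.Results.MP_61161c_nt.GeneralisedPolynomials
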